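import Pool.Agent.H12.RP4

/-! Fan's phase-invariance conjecture for Riesz products fails. -/

open MeasureTheory Finset Filter Topology

namespace Pool.Agent.Results.MP_b30265_an.Counter

instance twoPiPos : Fact (0 < 2 * Real.pi) := ⟨Real.two_pi_pos⟩

/-- The circle `ℝ / 2πℤ`. -/
abbrev Circ : Type := AddCircle (2 * Real.pi)

/-- The finite product `∏_{n < N} (1 + Re (a n * e^{i (lam n * x + φ n)}))`. -/
noncomputable def rieszProd (lam : ℕ → ℕ) (a : ℕ → ℂ) (φ : ℕ → ℝ) (N : ℕ) (x : Circ) : ℝ :=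
  ∏ n ∈ range N, (1 + (a n * (fourier (lam n) x * Complex.exp (φ n * Complex.I))).re)

/-- `μ` is the weak-* limit of the finite products times normalised Lebesgue measure. -/
def IsRiesz (lam : ℕ → ℕ) (a : ℕ → ℂ) (φ : ℕ → ℝ) (μ : Measure Circ) : Prop :=
  IsFiniteMeasure μ ∧ ∀ f : C(Circ, ℝ),
    Tendsto (fun N => ∫ x, f x * rieszProd lam a φ N x ∂AddCircle.haarAddCircle) atTop
      (𝓝 (∫ x, f x ∂μ))

/-- `lam` is a Hadamard sequence of positive integers. -/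
def Hadamard (lam : ℕ → ℕ) : Prop :=
  0 < lam 0 ∧ ∃ q : ℝ, 1 < q ∧ ∀ n, q < (lam (n + 1) : ℝ) / lam n

open Pool.Agent.H12.RP

lemma prod_zero (α : ℕ → ℝ) (N : ℕ) (x : T) :
    rieszProd (fun n => 4 ^ n) (fun n => α n) 0 N x = P α N x := by
  simp [rieszProd, P, ContinuousMap.prod_apply, fac_apply, cs_apply]

lemma prod_pi (α β : ℕ → ℝ) (h : ∀ n, β n = -α n) (N : ℕ) (x : T) :
    rieszProd (fun n => 4 ^ n) (fun n => α n) (fun _ => Real.pi) N x = P β N x := by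
  simp [rieszProd, P, ContinuousMap.prod_apply, fac_apply, cs_apply, h]

theorem result : ∃ (lam : ℕ → ℕ) (a b : ℕ → ℂ) (φ : ℕ → ℝ) (μa μb νa νb : Measure Circ),
    Hadamard lam ∧ (∀ n, ‖a n‖ < 1) ∧ (∀ n, ‖b n‖ < 1) ∧
    IsRiesz lam a 0 μa ∧ IsRiesz lam b 0 μb ∧ IsRiesz lam a φ νa ∧ IsRiesz lam b φ νb ∧
    ¬ μa.AbsolutelyContinuous μb ∧ νa.AbsolutelyContinuous νb := by
  have b1 : ∀ k, |1 - et k| < 1 := fun k =>
    abs_lt.2 ⟨by linarith [et_le k, ep_le k], by linarith [et_pos k]⟩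
  have b2 : ∀ k, |1 - ep k| < 1 := fun k =>
    abs_lt.2 ⟨by linarith [ep_le k], by linarith [ep_pos k]⟩
  have n1 : ∀ k, |-(1 - et k)| < 1 := fun k => by rw [abs_neg]; exact b1 k
  have n2 : ∀ k, |-(1 - ep k)| < 1 := fun k => by rw [abs_neg]; exact b2 k
  obtain ⟨μa, i1, h1⟩ := exists_riesz _ fun n => (co_abs b2 b1 n).le
  obtain ⟨μb, i2, h2⟩ := exists_riesz _ fun n => (co_abs b1 b1 n).le
  obtain ⟨νa, i3, h3⟩ := exists_riesz _ fun n => (co_abs n2 n1 n).le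
  obtain ⟨νb, i4, h4⟩ := exists_riesz _ fun n => (co_abs n1 n1 n).le
  refine ⟨fun n => 4 ^ n, fun n => co (fun k => 1 - ep k) (fun k => 1 - et k) n,
    fun n => co (fun k => 1 - et k) (fun k => 1 - et k) n, fun _ => Real.pi, μa, μb, νa, νb,
    ⟨by norm_num, 3, by norm_num, fun n => ?_⟩, fun n => ?_, fun n => ?_,
    ⟨inferInstance, fun f => ?_⟩, ⟨inferInstance, fun f => ?_⟩, ⟨inferInstance, fun f => ?_⟩,
    ⟨inferInstance, fun f => ?_⟩, zero_phase μa μb h1 h2, pi_phase νa νb h3 h4⟩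
  · push_cast
    rw [pow_succ, mul_div_cancel_left₀ _ (by positivity)]; norm_num
  · rw [Complex.norm_real, Real.norm_eq_abs]; exact co_abs b2 b1 n
  · rw [Complex.norm_real, Real.norm_eq_abs]; exact co_abs b1 b1 n
  · simp only [prod_zero]; exact h1 f
  · simp only [prod_zero]; exact h2 f
  · simp only [prod_pi _ _ (co_neg _ _)]; exact h3 f
  · simp only [prod_pi _ _ (co_neg _ _)]; exact h4 f

end Pool.Agent.Results.MP_b30265_an.Counter
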